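import Pool.Agent.Helper52.IG.SpGroup

/-!
# The coloured graph of the class of symplectic transvections in characteristic two

A copy of the hand-in SymplecticTransvections of helper52 (by helper52), for use in the hand-in on all classes.
-/

set_option autoImplicit false

namespace Pool.Agent.Helper81.SG

open Pool.Agent.Helper52.IG

/-- Let `V` be a symplectic space over a finite field of characteristic two, `L = Sp(V)` its
isometry group and `D` the set of the transvections `x ↦ x + B x v • v`, `v ≠ 0`. Then `D` is a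
conjugacy class of involutions (the only one if `dim V = 2`, that is `L = SL(2, 2 ^ k)`), and every
permutation of `D` which preserves the two relations: the order of `a b` is `2`, the order of
`a b` is `3`, between distinct elements (in particular every permutation which preserves the orders
of all products) is the restriction of an automorphism of the group `L`. -/
theorem transvections {K V : Type*} [Field K] [Finite K] [CharP K 2] [AddCommGroup V] [Module K V]
    [FiniteDimensional K V] (B : LinearMap.BilinForm K V) (halt : B.IsAlt)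
    (hnd : B.Nondegenerate) (L : Subgroup (V ≃ₗ[K] V))
    (hL : ∀ g : V ≃ₗ[K] V, g ∈ L ↔ ∀ x y, B (g x) (g y) = B x y) (D : Set L)
    (hD : ∀ a : L, a ∈ D ↔ ∃ v : V, v ≠ 0 ∧ ∀ x, (a : V ≃ₗ[K] V) x = x + B x v • v) :
    (∀ a ∈ D, orderOf a = 2) ∧ (∀ a ∈ D, ∀ b : L, b ∈ D ↔ IsConj a b) ∧
    (Module.finrank K V = 2 → ∀ a : L, orderOf a = 2 → a ∈ D) ∧
    ∀ τ : Equiv.Perm D,
      (∀ a b : D, a ≠ b →
        (orderOf ((τ a : L) * (τ b : L)) = 2 ↔ orderOf ((a : L) * (b : L)) = 2) ∧
        (orderOf ((τ a : L) * (τ b : L)) = 3 ↔ orderOf ((a : L) * (b : L)) = 3)) →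
      ∃ φ : L ≃* L, ∀ a : D, φ (a : L) = (τ a : L) := by
  classical
  -- the transvections as elements of `D`
  let td : (v : V) → v ≠ 0 → D := fun v hv =>
    ⟨⟨tv halt v, (hL _).2 (tv_isom halt v)⟩, (hD _).2 ⟨v, hv, fun x => rfl⟩⟩
  have hvec : ∀ a : D, ∃ v : V, ∃ hv : v ≠ 0, a = td v hv := by
    rintro ⟨a, ha⟩
    obtain ⟨v, hv, h⟩ := (hD a).1 ha
    refine ⟨v, hv, Subtype.ext (Subtype.ext (LinearEquiv.ext fun x => ?_))⟩
    exact h x
  have htd : ∀ v hv, ((td v hv : L) : V ≃ₗ[K] V) = tv halt v := fun _ _ => rfl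
  have hinj : ∀ u hu v hv, td u hu = td v hv → u = v := by
    intro u hu v hv h
    refine tv_inj hnd halt fun x => ?_
    have h2 := congrArg (fun a : D => ((a : L) : V ≃ₗ[K] V) x) h
    exact h2
  refine ⟨?_, ?_, ?_, ?_⟩
  · intro a ha
    obtain ⟨v, hv, h⟩ := hvec ⟨a, ha⟩
    have ha' : a = (td v hv : L) := congrArg Subtype.val h
    rw [ha', ← Subgroup.orderOf_coe, htd v hv]
    rw [orderOf_eq_prime_iff, sq, tv_mul_self]
    refine ⟨rfl, fun h1 => ?_⟩
    have h2 : v = 0 := tv_inj hnd halt fun x => by
      rw [← tv_apply halt, h1]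
      simp
    exact hv h2
  · intro a ha b
    obtain ⟨u, hu, h⟩ := hvec ⟨a, ha⟩
    have ha' : a = (td u hu : L) := congrArg Subtype.val h
    subst ha'
    constructor
    · intro hb
      obtain ⟨v, hv, h'⟩ := hvec ⟨b, hb⟩
      have hb' : b = (td v hv : L) := congrArg Subtype.val h'
      subst hb'
      obtain ⟨g, hg, hgu⟩ := exists_move hnd halt hu hv
      rw [isConj_iff]
      refine ⟨⟨g, (hL g).2 hg⟩, ?_⟩
      apply Subtype.ext
      apply LinearEquiv.ext
      intro x
      change g (tv halt u (g.symm x)) = tv halt v x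
      rw [tv_apply, map_add, map_smul, LinearEquiv.apply_symm_apply, ← hg, hgu,
        LinearEquiv.apply_symm_apply, tv_apply]
    · intro hab
      obtain ⟨c, hc⟩ := isConj_iff.1 hab
      rw [hD]
      have hcm := (hL c.1).1 c.2
      refine ⟨c.1 u, fun h0 => hu (c.1.map_eq_zero_iff.1 h0), fun x => ?_⟩
      rw [← hc]
      change c.1 (tv halt u (c.1.symm x)) = _
      rw [tv_apply, map_add, map_smul, LinearEquiv.apply_symm_apply, ← hcm,
        LinearEquiv.apply_symm_apply]
  · intro hfr a ha
    have ha2 : a ^ 2 = 1 ∧ a ≠ 1 := by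
      rw [← orderOf_eq_prime_iff]
      exact ha
    have hsq : ∀ x, a.1 (a.1 x) = x := by
      intro x
      have h := congrArg (fun b : L => b.1 x) ha2.1
      simp only [sq] at h
      exact h
    have hisom := (hL a.1).1 a.2
    let N : V →ₗ[K] V := a.1.toLinearMap + LinearMap.id
    have hN : ∀ x, N x = a.1 x + x := fun _ => rfl
    have hNN : ∀ x, N (N x) = 0 := by
      intro x
      rw [hN, hN, map_add, hsq, add_comm x, add_self_V K]
    have hle : LinearMap.range N ≤ LinearMap.ker N := by
      rintro _ ⟨x, rfl⟩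
      exact hNN x
    have h1 : Module.finrank K (LinearMap.range N) ≤ 1 := by
      have h2 := LinearMap.finrank_range_add_finrank_ker N
      have h3 := Submodule.finrank_mono hle
      omega
    obtain ⟨⟨w, hw⟩, hspan⟩ := finrank_le_one_iff.1 h1
    have hf : ∀ x, ∃ c : K, c • w = N x := by
      intro x
      obtain ⟨c, hc⟩ := hspan ⟨N x, ⟨x, rfl⟩⟩
      exact ⟨c, congrArg Subtype.val hc⟩
    choose f hf using hf
    have hax : ∀ x, a.1 x = x + f x • w := by
      intro x
      rw [hf, hN, add_comm (a.1 x), ← add_assoc, add_self_V K, zero_add]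
    have hw0 : w ≠ 0 := by
      rintro rfl
      refine ha2.2 (Subtype.ext (LinearEquiv.ext fun x => ?_))
      rw [hax, smul_zero, add_zero]
      rfl
    obtain ⟨y, hy⟩ : ∃ y, B y w ≠ 0 := by
      by_contra hcon
      push Not at hcon
      exact hw0 (hnd.1 _ fun x => by rw [alt_symm halt]; exact hcon x)
    have hrel : ∀ x, f x * B y w = f y * B x w := by
      intro x
      have h := hisom x y
      rw [hax x, hax y] at h
      simp only [map_add, map_smul, LinearMap.add_apply, LinearMap.smul_apply, smul_eq_mul,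
        halt w, mul_zero, add_zero] at h
      rw [alt_symm halt w y, add_assoc, add_eq_left] at h
      exact (CharTwo.add_eq_zero.1 h)
    obtain ⟨d, hd⟩ : ∃ d : K, d ^ 2 = f y * (B y w)⁻¹ := by
      have : Function.Surjective (frobenius K 2) :=
        Finite.surjective_of_injective (frobenius_inj K 2)
      exact this _
    have hfx : ∀ x, f x = d ^ 2 * B x w := by
      intro x
      rw [hd]
      field_simp
      rw [hrel x]
    rw [hD]
    refine ⟨d • w, ?_, fun x => ?_⟩
    · intro h0
      rcases smul_eq_zero.1 h0 with h0 | h0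
      · refine ha2.2 (Subtype.ext (LinearEquiv.ext fun x => ?_))
        rw [hax, hfx, h0]
        simp
      · exact hw0 h0
    · rw [hax, hfx, map_smul, smul_smul, smul_eq_mul]
      congr 2
      ring
  · intro τ hτ
    have hTex : ∀ v : V, ∃ w : V, (v = 0 → w = 0) ∧ ∀ hv : v ≠ 0, ∃ hw : w ≠ 0,
        τ (td v hv) = td w hw := by
      intro v
      by_cases hv : v = 0
      · exact ⟨0, fun _ => rfl, fun h => absurd hv h⟩
      · obtain ⟨w, hw, h⟩ := hvec (τ (td v hv))
        exact ⟨w, fun h => absurd h hv, fun _ => ⟨hw, h⟩⟩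
    choose T hT0 hT using hTex
    have hT00 : T 0 = 0 := hT0 0 rfl
    have hsurj : Function.Surjective T := by
      intro y
      by_cases hy : y = 0
      · exact ⟨0, by rw [hT00, hy]⟩
      · obtain ⟨v, hv, h⟩ := hvec (τ.symm (td y hy))
        refine ⟨v, ?_⟩
        obtain ⟨hw, h2⟩ := hT v hv
        rw [← h, Equiv.apply_symm_apply] at h2
        exact (hinj y hy (T v) hw h2).symm
    have hTne : ∀ u v, u ≠ 0 → v ≠ 0 → u ≠ v → T u ≠ T v := by
      intro u v hu hv huv h
      obtain ⟨hu', hu2⟩ := hT u hu
      obtain ⟨hv', hv2⟩ := hT v hv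
      apply huv
      apply hinj u hu v hv
      apply τ.injective
      rw [hu2, hv2]
      congr 1
    have hord : ∀ u v, (hu : u ≠ 0) → (hv : v ≠ 0) → u ≠ v →
        (orderOf (tv halt (T u) * tv halt (T v)) = 2 ↔ orderOf (tv halt u * tv halt v) = 2) ∧
        (orderOf (tv halt (T u) * tv halt (T v)) = 3 ↔ orderOf (tv halt u * tv halt v) = 3) := by
      intro u v hu hv huv
      have h := hτ (td u hu) (td v hv) (fun h => huv (hinj u hu v hv h))
      obtain ⟨hu', hu2⟩ := hT u hu
      obtain ⟨hv', hv2⟩ := hT v hv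
      rw [hu2, hv2, ← Subgroup.orderOf_coe, ← Subgroup.orderOf_coe] at h
      exact h
    have h0 : ∀ u v, B (T u) (T v) = 0 ↔ B u v = 0 := by
      intro u v
      by_cases hu : u = 0
      · rw [hu, hT00]
        simp
      by_cases hv : v = 0
      · rw [hv, hT00]
        simp
      by_cases huv : u = v
      · rw [huv, halt, halt]
      rw [← order_two_iff hnd halt hu huv,
        ← order_two_iff hnd halt (hT u hu).1 (hTne u v hu hv huv)]
      exact (hord u v hu hv huv).1
    have h1 : ∀ u v, B (T u) (T v) = 1 ↔ B u v = 1 := by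
      intro u v
      by_cases hu : u = 0
      · rw [hu, hT00]
        simp
      by_cases hv : v = 0
      · rw [hv, hT00]
        simp
      by_cases huv : u = v
      · rw [huv, halt, halt]
      rw [← order_three_iff hnd halt, ← order_three_iff hnd halt]
      exact (hord u v hu hv huv).2
    obtain ⟨σ, hadd, hsmul, hB⟩ := core hnd halt hsurj h0 h1
    have hTinj : Function.Injective T := by
      intro u v h
      have h2 : T (u - v) = 0 := by
        have := hadd (u - v) v
        rw [sub_add_cancel, h] at this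
        exact (right_eq_add.1 this)
      exact sub_eq_zero.1 (T_eq_zero hnd h0 h2)
    let Te : V ≃+ V := AddEquiv.ofBijective (AddMonoidHom.mk' T hadd) ⟨hTinj, hsurj⟩
    have hTe : ∀ x, Te x = T x := fun _ => rfl
    have hTes : ∀ (c : K) x, Te (c • x) = σ c • Te x := hsmul
    have hBs : ∀ x y, B (Te.symm x) (Te.symm y) = σ.symm (B x y) := by
      intro x y
      apply σ.injective
      rw [← hB, ← hTe, ← hTe]
      simp
    refine ⟨cjL Te σ hTes L ?_ ?_, ?_⟩
    · intro g hg
      rw [hL] at hg ⊢
      intro x y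
      rw [cj_apply, cj_apply, hTe, hTe, hB, hg, hBs]
      simp
    · intro g hg
      rw [hL] at hg ⊢
      intro x y
      rw [cj_apply, cj_apply, hBs, hg]
      simp [hTe, hB]
    · intro a
      obtain ⟨v, hv, rfl⟩ := hvec a
      obtain ⟨hw, h⟩ := hT v hv
      rw [h]
      apply Subtype.ext
      apply LinearEquiv.ext
      intro x
      change T (tv halt v (Te.symm x)) = tv halt (T v) x
      rw [tv_apply, tv_apply, hadd, hsmul, ← hTe (Te.symm x), AddEquiv.apply_symm_apply, ← hB,
        ← hTe (Te.symm x), AddEquiv.apply_symm_apply]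

end Pool.Agent.Helper81.SG
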