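import Pool.Agent.Helper81.SG.Asm
import Pool.Agent.Helper81.SG.Tv

/-!
# Project SG: all classes
-/

set_option autoImplicit false
set_option linter.unusedSectionVars false

open LinearMap

namespace Pool.Agent.Helper81.SG

open Pool.Agent.Helper2.EV Pool.Agent.Helper52.IG

variable {K : Type*} [Field K] [Finite K] [CharP K 2] {V : Type*} [AddCommGroup V] [Module K V]
  [FiniteDimensional K V]

/-- Rank one elements are transvections. -/
theorem rank_one {B : LinearMap.BilinForm K V} (hnd : B.Nondegenerate) (halt : B.IsAlt)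
    {ty : Prop} {N : Module.End K V} (hN : N ∈ SD B 1 ty) :
    ∃ v, v ≠ 0 ∧ ∀ x, N x = B x v • v := by
  have hex : ∃ x, B (N x) x ≠ 0 := by
    by_contra hcon
    push Not at hcon
    obtain ⟨m, hm, -⟩ := frame_alt hnd halt 1 (sd_adj hN) hcon (sd_rank hN).le
    rw [sd_rank hN] at hm
    omega
  obtain ⟨u, hu, hux⟩ := frame_non hnd halt 0 (sd_adj hN) hex (sd_rank hN)
  refine ⟨u 0, ?_, fun x => by rw [hux, Fin.sum_univ_one]⟩
  intro h0
  obtain ⟨x, hx⟩ := hex
  rw [hux, Fin.sum_univ_one, h0, smul_zero, map_zero, LinearMap.zero_apply] at hx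
  exact hx rfl

/-- Q1 for all involution classes of the isometry group, from the core. -/
theorem all_classes (B : LinearMap.BilinForm K V) (halt : B.IsAlt) (hnd : B.Nondegenerate)
    (core : ∀ (j : ℕ), 2 ≤ j → ∀ ty : Prop, Core B j ty)
    (L : Subgroup (V ≃ₗ[K] V)) (hL : ∀ g : V ≃ₗ[K] V, g ∈ L ↔ ∀ x y, B (g x) (g y) = B x y)
    (a : L) (ha : orderOf a = 2)
    (h : IsSimpleGroup L ∨ ∃ v : V, ∀ x, (a : V ≃ₗ[K] V) x = x + B x v • v)
    (τ : Equiv.Perm {b : L // IsConj a b})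
    (hτ : ∀ x y, x ≠ y → orderOf ((τ x : L) * τ y) = orderOf ((x : L) * y)) :
    ∃ φ : MulAut L, φ '' {b | IsConj a b} = {b | IsConj a b} ∧ ∀ x, φ x.1 = (τ x).1 := by
  have key : ∃ φ : MulAut L, ∀ x, φ x.1 = (τ x).1 := by
    -- transvections
    have htv : (∃ v : V, v ≠ 0 ∧ ∀ x, (a : V ≃ₗ[K] V) x = x + B x v • v) →
        ∃ φ : MulAut L, ∀ x, φ x.1 = (τ x).1 := by
      rintro ⟨v, hv, hav⟩
      obtain ⟨-, h2, -, h4⟩ := transvections B halt hnd L hL
        {b : L | ∃ v : V, v ≠ 0 ∧ ∀ x, (b : V ≃ₗ[K] V) x = x + B x v • v} (fun _ => Iff.rfl)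
      have hc : ∀ b : L, (b ∈ {b : L | ∃ v : V, v ≠ 0 ∧ ∀ x, (b : V ≃ₗ[K] V) x = x + B x v • v}) ↔
          IsConj a b := fun b => h2 a ⟨v, hv, hav⟩ b
      let e : {b : L | ∃ v : V, v ≠ 0 ∧ ∀ x, (b : V ≃ₗ[K] V) x = x + B x v • v} ≃
          {b : L // IsConj a b} := Equiv.subtypeEquivRight hc
      obtain ⟨φ, hφ⟩ := h4 ((e.trans τ).trans e.symm) (by
        intro x y hxy
        have h5 := hτ (e x) (e y) fun h => hxy (e.injective h)
        have h6 : orderOf (((((e.trans τ).trans e.symm) x : _) : L) *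
            ((((e.trans τ).trans e.symm) y : _) : L)) = orderOf ((x : L) * (y : L)) := h5
        rw [h6]
        exact ⟨Iff.rfl, Iff.rfl⟩)
      refine ⟨φ, fun x => ?_⟩
      have h5 := hφ (e.symm x)
      have h6 : ((e.trans τ).trans e.symm) (e.symm x) = e.symm (τ x) := by
        show e.symm (τ (e (e.symm x))) = _
        rw [Equiv.apply_symm_apply]
      rw [h6] at h5
      exact h5
    rcases h with h | ⟨v, hv⟩
    · have hLS : L = Sp B := by
        ext g
        exact hL g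
      subst hLS
      obtain ⟨j, ty, hj, N₀, rfl⟩ := desc halt ha
      by_cases hj2 : 2 ≤ j
      · exact large hnd halt hj (core j hj2 ty) N₀ τ hτ
      · have hj1 : j = 1 := by omega
        subst hj1
        obtain ⟨v, hv0, hv⟩ := rank_one hnd halt N₀.2
        refine htv ⟨v, hv0, fun x => ?_⟩
        rw [iv_apply, hv]
    · refine htv ⟨v, ?_, hv⟩
      rintro rfl
      have h1 : a = 1 := by
        apply Subtype.ext
        ext x
        rw [hv, smul_zero, add_zero]
        rfl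
      rw [h1, orderOf_one] at ha
      omega
  obtain ⟨φ, hφ⟩ := key
  refine ⟨φ, ?_, hφ⟩
  ext b
  constructor
  · rintro ⟨x, hx, rfl⟩
    rw [hφ ⟨x, hx⟩]
    exact (τ ⟨x, hx⟩).2
  · intro hb
    refine ⟨(τ.symm ⟨b, hb⟩).1, (τ.symm ⟨b, hb⟩).2, ?_⟩
    rw [hφ, Equiv.apply_symm_apply]

end Pool.Agent.Helper81.SG
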