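import Pool.Agent.Helper81.SG.Cls
import Pool.Agent.Helper52.IG.SpGroup
import Pool.Agent.Helper2.RO.Ext

/-!
# Project SG: assembly

`Sp B` is the isometry group. If the permutations of `SD B j ty` which preserve the orders respect conjugation
(`Core`), then Q1 holds for the corresponding class of involutions of `Sp B`.
-/

set_option autoImplicit false
set_option linter.unusedSectionVars false

open LinearMap

namespace Pool.Agent.Helper81.SG

open Pool.Agent.Helper2.EV Pool.Agent.Helper52.IG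

variable {K : Type*} [Field K] [CharP K 2] {V : Type*} [AddCommGroup V] [Module K V]
  {B : LinearMap.BilinForm K V} [FiniteDimensional K V]

/-- The isometry group. -/
def Sp (B : LinearMap.BilinForm K V) : Subgroup (V ≃ₗ[K] V) where
  carrier := {g | Isom B g}
  mul_mem' := fun ha hb => isom_mul ha hb
  one_mem' := isom_one
  inv_mem' := by
    intro g hg x y
    show B (g.symm x) (g.symm y) = B x y
    rw [← hg, LinearEquiv.apply_symm_apply, LinearEquiv.apply_symm_apply]

/-- What the core of the proof gives. -/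
def Core (B : LinearMap.BilinForm K V) (j : ℕ) (ty : Prop) : Prop :=
  ∀ ψ ψ' : Module.End K V → Module.End K V, PresS B j ty ψ → PresS B j ty ψ' →
    (∀ X ∈ SD B j ty, ψ (ψ' X) = X) → (∀ X ∈ SD B j ty, ψ' (ψ X) = X) →
    ∀ N ∈ SD B j ty, ∀ M ∈ SD B j ty,
      ψ ((1 + N) * M * (1 + N)) = (1 + ψ N) * ψ M * (1 + ψ N)

theorem one_add_sq81 {N : Module.End K V} (h : N * N = 0) : (1 + N) * (1 + N) = 1 := by
  ext x
  have h1 : N (N x) = 0 := LinearMap.congr_fun h x
  show x + N x + N (x + N x) = x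
  rw [map_add, h1, add_zero, add_assoc, add_self_V K, add_zero]

/-- The isometry `1 + N`. -/
noncomputable def ie81 {N : Module.End K V} (h : N * N = 0) : V ≃ₗ[K] V :=
  LinearEquiv.ofInvolutive (1 + N) fun x => LinearMap.congr_fun (one_add_sq81 h) x

theorem ie81_apply {N : Module.End K V} (h : N * N = 0) (x : V) : ie81 h x = x + N x := rfl

theorem ie81_isom (halt : B.IsAlt) {j : ℕ} {ty : Prop} {N : Module.End K V}
    (h : N ∈ SD B j ty) : Isom B (ie81 (sd_mul h)) := by
  intro x y
  rw [ie81_apply, ie81_apply, map_add, map_add, LinearMap.add_apply, LinearMap.add_apply,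
    sd_iso h, add_zero, sd_adj h, add_assoc, CharTwo.add_self_eq_zero, add_zero]

/-- `1 + N` in the group. -/
noncomputable def iv (halt : B.IsAlt) {j : ℕ} {ty : Prop} (N : SD B j ty) : Sp B :=
  ⟨ie81 (sd_mul N.2), ie81_isom halt N.2⟩

theorem iv_apply (halt : B.IsAlt) {j : ℕ} {ty : Prop} (N : SD B j ty) (x : V) :
    (iv halt N : V ≃ₗ[K] V) x = x + (N : Module.End K V) x := rfl

theorem iv_mul_self (halt : B.IsAlt) {j : ℕ} {ty : Prop} (N : SD B j ty) :
    iv halt N * iv halt N = 1 := by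
  apply Subtype.ext
  ext x
  exact LinearMap.congr_fun (one_add_sq81 (sd_mul N.2)) x

theorem iv_inv (halt : B.IsAlt) {j : ℕ} {ty : Prop} (N : SD B j ty) :
    (iv halt N)⁻¹ = iv halt N :=
  inv_eq_of_mul_eq_one_left (iv_mul_self halt N)

theorem pow_iv (halt : B.IsAlt) {j : ℕ} {ty : Prop} (N M : SD B j ty) (m : ℕ) :
    (iv halt N * iv halt M) ^ m = 1 ↔
      ((1 + (N : Module.End K V)) * (1 + (M : Module.End K V))) ^ m = 1 := by
  have h1 : ∀ (m : ℕ) (x : V), (((iv halt N * iv halt M) ^ m : Sp B) : V ≃ₗ[K] V) x =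
      (((1 + (N : Module.End K V)) * (1 + (M : Module.End K V))) ^ m) x := by
    intro m
    induction m with
    | zero => intro x; rfl
    | succ m ih =>
      intro x
      rw [pow_succ', pow_succ', Module.End.mul_apply, ← ih]
      rfl
  constructor
  · intro h
    ext x
    rw [← h1, h]
    rfl
  · intro h
    apply Subtype.ext
    ext x
    rw [h1, h]
    rfl

theorem order_iv (halt : B.IsAlt) {j : ℕ} {ty : Prop} (N M : SD B j ty) :
    orderOf (iv halt N * iv halt M) =
      orderOf ((1 + (N : Module.End K V)) * (1 + (M : Module.End K V))) :=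
  orderOf_eq_orderOf_iff.2 (pow_iv halt N M)

theorem iv_inj (halt : B.IsAlt) {j : ℕ} {ty : Prop} :
    Function.Injective (iv halt (j := j) (ty := ty)) := by
  intro N M hNM
  apply Subtype.ext
  ext x
  have h1 : (iv halt N : V ≃ₗ[K] V) x = (iv halt M : V ≃ₗ[K] V) x := by rw [hNM]
  rw [iv_apply, iv_apply] at h1
  exact add_left_cancel h1

/-- The conjugate of `N` by `g`. -/
noncomputable def cj81 {j : ℕ} {ty : Prop} (g : Sp B) (N : SD B j ty) : SD B j ty :=
  ⟨_, sd_conj N.2 g.2⟩

theorem iv_conj (halt : B.IsAlt) {j : ℕ} {ty : Prop} (g : Sp B) (N : SD B j ty) :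
    g * iv halt N * g⁻¹ = iv halt (cj81 g N) := by
  rw [mul_inv_eq_iff_eq_mul]
  apply Subtype.ext
  ext x
  show (g : V ≃ₗ[K] V) (x + (N : Module.End K V) x) = (g : V ≃ₗ[K] V) x +
    (g : V ≃ₗ[K] V) ((N : Module.End K V) ((g : V ≃ₗ[K] V).symm ((g : V ≃ₗ[K] V) x)))
  rw [LinearEquiv.symm_apply_apply, map_add]

theorem isConj_iv [Finite K] (hnd : B.Nondegenerate) (halt : B.IsAlt) {j : ℕ} {ty : Prop}
    (N : SD B j ty) (b : Sp B) : IsConj (iv halt N) b ↔ ∃ M : SD B j ty, iv halt M = b := by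
  constructor
  · intro hb
    obtain ⟨g, hg⟩ := isConj_iff.1 hb
    rw [iv_conj] at hg
    exact ⟨_, hg⟩
  · rintro ⟨M, rfl⟩
    obtain ⟨g, hg, hg'⟩ := sd_trans hnd halt N.2 M.2
    rw [isConj_iff]
    refine ⟨⟨g, hg⟩, ?_⟩
    rw [iv_conj]
    congr 1
    apply Subtype.ext
    ext x
    exact hg' x

/-- Involutions of the isometry group. -/
theorem desc (halt : B.IsAlt) {a : Sp B} (ha : orderOf a = 2) :
    ∃ (j : ℕ) (ty : Prop), 1 ≤ j ∧ ∃ N : SD B j ty, iv halt N = a := by
  have h1 := (orderOf_eq_prime_iff (p := 2)).1 ha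
  have hx : ∀ x, (a : V ≃ₗ[K] V) ((a : V ≃ₗ[K] V) x) = x := by
    intro x
    have h2 : a * a = 1 := by rw [← pow_two]; exact h1.1
    have h3 := congrArg (fun g : Sp B => (g : V ≃ₗ[K] V) x) h2
    exact h3
  obtain ⟨N, hN⟩ : ∃ N : Module.End K V, N = ((a : V ≃ₗ[K] V) : V →ₗ[K] V) + 1 := ⟨_, rfl⟩
  have hNx : ∀ x, N x = (a : V ≃ₗ[K] V) x + x := fun x => by rw [hN]; rfl
  have hax : ∀ x, x + N x = (a : V ≃ₗ[K] V) x := fun x => by
    rw [hNx, add_comm _ x, ← add_assoc, add_self_V K, zero_add]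
  have hsq : N * N = 0 := by
    ext x
    show N (N x) = 0
    rw [hNx, hNx, map_add, hx, add_comm x, add_self_V K]
  have hadj : ∀ x y, B (N x) y = B x (N y) := by
    intro x y
    have h2 := a.2 x y
    have h3 := a.2 x (N y)
    rw [← hax, ← hax] at h2 h3
    have h4 : N (N y) = 0 := LinearMap.congr_fun hsq y
    rw [h4, add_zero] at h3
    simp only [map_add, LinearMap.add_apply] at h2 h3
    linear_combination h2 - h3 - dd (B (N x) (N y)) + h3 + h3 - dd (B x (N y))
  refine ⟨Module.finrank K (range N), ∀ x, B (N x) x = 0, ?_, ⟨N, ⟨hsq, rfl⟩, hadj, Iff.rfl⟩, ?_⟩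
  · by_contra hcon
    have h2 : range N = ⊥ := by
      rw [← Submodule.finrank_eq_zero (R := K)]
      omega
    apply h1.2
    apply Subtype.ext
    ext x
    have h3 : N x ∈ range N := ⟨x, rfl⟩
    rw [h2, Submodule.mem_bot] at h3
    rw [← hax, h3, add_zero]
    rfl
  · apply Subtype.ext
    ext x
    exact hax x

/-- Generation, if the group is simple. -/
theorem iv_generate (halt : B.IsAlt) [IsSimpleGroup (Sp B)] {j : ℕ} (hj : 1 ≤ j) {ty : Prop}
    (N₀ : SD B j ty) : Subgroup.closure (Set.range (iv halt (j := j) (ty := ty))) = ⊤ := by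
  have hn : (Subgroup.closure (Set.range (iv halt (j := j) (ty := ty)))).Normal := by
    constructor
    intro x hx g
    induction hx using Subgroup.closure_induction with
    | mem x hx =>
      obtain ⟨N, rfl⟩ := hx
      rw [iv_conj]
      exact Subgroup.subset_closure ⟨_, rfl⟩
    | one =>
      rw [mul_one, mul_inv_cancel]
      exact Subgroup.one_mem _
    | mul x y _ _ h1 h3 =>
      have h4 : g * (x * y) * g⁻¹ = (g * x * g⁻¹) * (g * y * g⁻¹) := by group
      rw [h4]
      exact Subgroup.mul_mem _ h1 h3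
    | inv x _ h1 =>
      have h4 : g * x⁻¹ * g⁻¹ = (g * x * g⁻¹)⁻¹ := by group
      rw [h4]
      exact Subgroup.inv_mem _ h1
  rcases hn.eq_bot_or_eq_top with h1 | h1
  · exfalso
    have h3 : iv halt N₀ ∈ Subgroup.closure (Set.range (iv halt (j := j) (ty := ty))) :=
      Subgroup.subset_closure ⟨_, rfl⟩
    rw [h1, Subgroup.mem_bot] at h3
    have h4 : (N₀ : Module.End K V) = 0 := by
      ext x
      have h5 := congrArg (fun g : Sp B => (g : V ≃ₗ[K] V) x) h3
      have h6 : x + (N₀ : Module.End K V) x = x := h5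
      exact add_eq_left.1 h6
    have h5 := sd_rank N₀.2
    rw [h4, LinearMap.range_zero, finrank_bot] at h5
    omega
  · exact h1

/-- The action on a generating class is faithful. -/
theorem faithful (hnd : B.Nondegenerate) (halt : B.IsAlt) {j : ℕ} {ty : Prop}
    (hgen : Subgroup.closure (Set.range (iv halt (j := j) (ty := ty))) = ⊤) (g : Sp B)
    (hg : ∀ N : SD B j ty, g * iv halt N * g⁻¹ = iv halt N) : g = 1 := by
  have h1 : ∀ x : Sp B, g * x = x * g := by
    intro x
    have hx : x ∈ Subgroup.closure (Set.range (iv halt (j := j) (ty := ty))) := by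
      rw [hgen]
      exact Subgroup.mem_top x
    induction hx using Subgroup.closure_induction with
    | mem x hx =>
      obtain ⟨N, rfl⟩ := hx
      exact mul_inv_eq_iff_eq_mul.1 (hg N)
    | one => rw [one_mul, mul_one]
    | mul x y _ _ hx hy => rw [← mul_assoc, hx, mul_assoc, hy, mul_assoc]
    | inv x _ hx => rw [eq_inv_mul_iff_mul_eq, ← mul_assoc, ← hx, mul_inv_cancel_right]
  apply Subtype.ext
  ext v
  show (g : V ≃ₗ[K] V) v = v
  have h2 := h1 ⟨tv halt v, tv_isom halt v⟩
  refine tv_inj hnd halt fun x => ?_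
  have h3 := congrArg (fun k : Sp B => (k : V ≃ₗ[K] V) ((g : V ≃ₗ[K] V).symm x)) h2
  have h4 : (g : V ≃ₗ[K] V) (tv halt v ((g : V ≃ₗ[K] V).symm x)) =
      tv halt v ((g : V ≃ₗ[K] V) ((g : V ≃ₗ[K] V).symm x)) := h3
  rw [LinearEquiv.apply_symm_apply, tv_apply, tv_apply, map_add, map_smul,
    LinearEquiv.apply_symm_apply, isom_symm g.2] at h4
  exact h4

/-- Q1 for one class, from the core. -/
theorem large [Finite K] (hnd : B.Nondegenerate) (halt : B.IsAlt) [IsSimpleGroup (Sp B)] {j : ℕ}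
    (hj : 1 ≤ j) {ty : Prop} (core : Core B j ty) (N₀ : SD B j ty)
    (τ : Equiv.Perm {b : Sp B // IsConj (iv halt N₀) b})
    (hτ : ∀ x y, x ≠ y → orderOf ((τ x : Sp B) * τ y) = orderOf ((x : Sp B) * y)) :
    ∃ φ : MulAut (Sp B), ∀ x, φ x.1 = (τ x).1 := by
  classical
  have hVfin : Finite V := Module.finite_of_finite K
  have hEfin : Finite (V ≃ₗ[K] V) :=
    Finite.of_injective (fun g : V ≃ₗ[K] V => (g : V → V)) DFunLike.coe_injective
  have hinj := iv_inj halt (j := j) (ty := ty)
  let e : SD B j ty ≃ {b : Sp B // IsConj (iv halt N₀) b} :=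
    Equiv.ofBijective (fun X => ⟨iv halt X, (isConj_iv hnd halt N₀ _).2 ⟨X, rfl⟩⟩)
      ⟨fun X Y hXY => hinj (congrArg Subtype.val hXY), fun b => by
        obtain ⟨Y, hY⟩ := (isConj_iv hnd halt N₀ _).1 b.2
        exact ⟨Y, Subtype.ext hY⟩⟩
  have he : ∀ X, ((e X : {b : Sp B // IsConj (iv halt N₀) b}) : Sp B) = iv halt X := fun X => rfl
  let T : Equiv.Perm (SD B j ty) := (e.trans τ).trans e.symm
  have hT : ∀ X, iv halt (T X) = (τ (e X)).1 := by
    intro X
    rw [← he]
    show (e (e.symm (τ (e X)))).1 = _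
    rw [Equiv.apply_symm_apply]
  have hord : ∀ X Y : SD B j ty, orderOf ((1 + ((T X : SD B j ty) : Module.End K V)) *
      (1 + ((T Y : SD B j ty) : Module.End K V))) =
      orderOf ((1 + (X : Module.End K V)) * (1 + (Y : Module.End K V))) := by
    intro X Y
    by_cases hXY : X = Y
    · rw [hXY, one_add_sq81 (sd_mul (T Y).2), one_add_sq81 (sd_mul Y.2)]
    · rw [← order_iv halt, ← order_iv halt, hT, hT, hτ _ _ (fun hc => hXY (e.injective hc))]
      rfl
  let t : Module.End K V → Module.End K V := fun X =>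
    if hX : X ∈ SD B j ty then (T ⟨X, hX⟩ : Module.End K V) else 0
  let t' : Module.End K V → Module.End K V := fun X =>
    if hX : X ∈ SD B j ty then (T.symm ⟨X, hX⟩ : Module.End K V) else 0
  have ht : ∀ X : SD B j ty, t X = T X := fun X => dif_pos X.2
  have ht' : ∀ X : SD B j ty, t' X = T.symm X := fun X => dif_pos X.2
  have hP : PresS B j ty t :=
    { mem := fun X hX => by
        rw [show t X = (T ⟨X, hX⟩ : Module.End K V) from ht ⟨X, hX⟩]
        exact (T ⟨X, hX⟩).2
      ord := fun X hX Y hY m => by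
        rw [show t X = (T ⟨X, hX⟩ : Module.End K V) from ht ⟨X, hX⟩,
          show t Y = (T ⟨Y, hY⟩ : Module.End K V) from ht ⟨Y, hY⟩,
          ← orderOf_dvd_iff_pow_eq_one, ← orderOf_dvd_iff_pow_eq_one, hord] }
  have hP' : PresS B j ty t' :=
    { mem := fun X hX => by
        rw [show t' X = (T.symm ⟨X, hX⟩ : Module.End K V) from ht' ⟨X, hX⟩]
        exact (T.symm ⟨X, hX⟩).2
      ord := fun X hX Y hY m => by
        rw [show t' X = (T.symm ⟨X, hX⟩ : Module.End K V) from ht' ⟨X, hX⟩,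
          show t' Y = (T.symm ⟨Y, hY⟩ : Module.End K V) from ht' ⟨Y, hY⟩,
          ← orderOf_dvd_iff_pow_eq_one, ← orderOf_dvd_iff_pow_eq_one, ← hord,
          Equiv.apply_symm_apply, Equiv.apply_symm_apply] }
  have htt' : ∀ X ∈ SD B j ty, t (t' X) = X := by
    intro X hX
    rw [show t' X = (T.symm ⟨X, hX⟩ : Module.End K V) from ht' ⟨X, hX⟩, ht,
      Equiv.apply_symm_apply]
  have ht't : ∀ X ∈ SD B j ty, t' (t X) = X := by
    intro X hX
    rw [show t X = (T ⟨X, hX⟩ : Module.End K V) from ht ⟨X, hX⟩, ht', Equiv.symm_apply_apply]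
  have hcj : ∀ X Y : SD B j ty, (T (cj81 (iv halt X) Y) : Module.End K V) =
      (cj81 (iv halt (T X)) (T Y) : SD B j ty) := by
    have key : ∀ X Y : SD B j ty, ((cj81 (iv halt X) Y : SD B j ty) : Module.End K V) =
        (1 + (X : Module.End K V)) * (Y : Module.End K V) * (1 + (X : Module.End K V)) := by
      intro X Y
      ext x
      show (iv halt X : V ≃ₗ[K] V) ((Y : Module.End K V)
        (((iv halt X : V ≃ₗ[K] V)⁻¹ : V ≃ₗ[K] V) x)) = _
      rw [← Subgroup.coe_inv, iv_inv]
      rfl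
    intro X Y
    rw [key, ← ht, key, ← ht X, ← ht Y]
    exact core t t' hP hP' htt' ht't _ X.2 _ Y.2
  have hgen := iv_generate halt hj N₀
  obtain ⟨φ, hφ⟩ := Pool.Agent.Helper2.RO.extend (iv halt (j := j) (ty := ty)) hinj
    (fun g X => ⟨_, iv_conj halt g X⟩) hgen (faithful hnd halt hgen) T (by
      intro x y z hz
      rw [iv_conj] at hz
      have h1 := hinj hz
      rw [iv_conj, ← h1]
      congr 1
      exact Subtype.ext (hcj x y).symm)
  refine ⟨φ, ?_⟩
  intro x
  obtain ⟨X, rfl⟩ := e.surjective x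
  rw [he, hφ, hT]

end Pool.Agent.Helper81.SG
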