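import Pool.Agent.Helper81.SG.Frame

/-!
# Project SG: the isometry group is transitive on `SD B j ty`
-/

set_option autoImplicit false
set_option linter.unusedSectionVars false

open LinearMap

namespace Pool.Agent.Helper81.SG

open Pool.Agent.Helper2.EV Pool.Agent.Helper52.IG

variable {K : Type*} [Field K] [CharP K 2] {V : Type*} [AddCommGroup V] [Module K V]
  {B : LinearMap.BilinForm K V} [FiniteDimensional K V]

/-- A family which spans the image and has as many members as its dimension is independent. -/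
theorem indep {ι : Type*} [Fintype ι] {N : Module.End K V} {σ : ι → ι} {u : ι → V}
    (hN : ∀ x, N x = ∑ i, B x (u i) • u (σ i))
    (hc : Module.finrank K (range N) = Fintype.card ι) : LinearIndependent K u := by
  rw [linearIndependent_iff_card_le_finrank_span, ← hc]
  apply Submodule.finrank_mono
  rintro _ ⟨x, rfl⟩
  rw [hN]
  exact Submodule.sum_mem _ fun i _ => Submodule.smul_mem _ _ (Submodule.subset_span ⟨_, rfl⟩)

/-- Members of `SD B j ty` are conjugate. -/
theorem sd_trans [Finite K] (hnd : B.Nondegenerate) (halt : B.IsAlt) {j : ℕ} {ty : Prop}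
    {N N' : Module.End K V} (hN : N ∈ SD B j ty) (hN' : N' ∈ SD B j ty) :
    ∃ g : V ≃ₗ[K] V, Isom B g ∧ ∀ x, g (N (g.symm x)) = N' x := by
  have hiso : ∀ {M : Module.End K V}, M ∈ SD B j ty → ∀ a ∈ range M, ∀ b ∈ range M, B a b = 0 := by
    rintro M hM _ ⟨x, rfl⟩ _ ⟨y, rfl⟩
    exact sd_iso hM x y
  by_cases hty : ty
  · obtain ⟨m, hm, u, v, hu, hv, huv⟩ := frame_alt hnd halt (Module.finrank K (range N))
      (sd_adj hN) (hN.2.2.2 hty) le_rfl
    obtain ⟨m', hm', u', v', hu', hv', huv'⟩ := frame_alt hnd halt (Module.finrank K (range N'))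
      (sd_adj hN') (hN'.2.2.2 hty) le_rfl
    have hmm : m' = m := by
      rw [sd_rank hN] at hm
      rw [sd_rank hN'] at hm'
      omega
    subst hmm
    have hs : ∀ (p q : Fin m' → V) (x : V),
        ∑ i, (B x (p i) • q i + B x (q i) • p i) =
        ∑ i : Fin m' ⊕ Fin m', B x (Sum.elim p q i) • Sum.elim p q (Sum.swap i) := by
      intro p q x
      rw [Fintype.sum_sum_type, Finset.sum_add_distrib]
      rfl
    have hr : ∀ {M : Module.End K V} {p q : Fin m' → V}, (∀ i, p i ∈ range M) →
        (∀ i, q i ∈ range M) → ∀ i, Sum.elim p q i ∈ range M := by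
      rintro M p q hp hq (i | i)
      · exact hp i
      · exact hq i
    have h1 : ∀ x, N x = ∑ i : Fin m' ⊕ Fin m', B x (Sum.elim u v i) • Sum.elim u v (Sum.swap i) :=
      fun x => by rw [huv, hs]
    have h2 : ∀ x, N' x =
        ∑ i : Fin m' ⊕ Fin m', B x (Sum.elim u' v' i) • Sum.elim u' v' (Sum.swap i) :=
      fun x => by rw [huv', hs]
    exact conj_of_frames hnd halt Sum.swap (indep h1 (by
      rw [hm, Fintype.card_sum, Fintype.card_fin])) (indep h2 (by
      rw [hm', Fintype.card_sum, Fintype.card_fin]))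
      (fun i k => hiso hN _ (hr hu hv i) _ (hr hu hv k))
      (fun i k => hiso hN' _ (hr hu' hv' i) _ (hr hu' hv' k)) h1 h2
  · have hex : ∀ {M : Module.End K V}, M ∈ SD B j ty → ∃ x, B (M x) x ≠ 0 := by
      intro M hM
      by_contra hcon
      push Not at hcon
      exact hty (hM.2.2.1 hcon)
    have hj : ∃ k, j = k + 1 := by
      obtain ⟨x, hx⟩ := hex hN
      rcases Nat.eq_zero_or_pos j with h0 | h0
      · exfalso
        have h1 : range N = ⊥ := by
          rw [← Submodule.finrank_eq_zero (R := K), sd_rank hN, h0]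
        have h2 : N x ∈ range N := ⟨x, rfl⟩
        rw [h1, Submodule.mem_bot] at h2
        rw [h2, map_zero, LinearMap.zero_apply] at hx
        exact hx rfl
      · exact ⟨j - 1, by omega⟩
    obtain ⟨k, rfl⟩ := hj
    obtain ⟨u, hu, hux⟩ := frame_non hnd halt k (sd_adj hN) (hex hN) (sd_rank hN)
    obtain ⟨u', hu', hux'⟩ := frame_non hnd halt k (sd_adj hN') (hex hN') (sd_rank hN')
    exact conj_of_frames hnd halt id (indep (σ := id) hux (by
      rw [sd_rank hN, Fintype.card_fin])) (indep (σ := id) hux' (by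
      rw [sd_rank hN', Fintype.card_fin])) (fun i k => hiso hN _ (hu i) _ (hu k))
      (fun i k => hiso hN' _ (hu' i) _ (hu' k)) hux hux'

/-- Conjugates by isometries. -/
theorem sd_conj {j : ℕ} {ty : Prop} {N : Module.End K V} (hN : N ∈ SD B j ty)
    {g : V ≃ₗ[K] V} (hg : Isom B g) :
    (g : V →ₗ[K] V) ∘ₗ N ∘ₗ (g.symm : V →ₗ[K] V) ∈ SD B j ty := by
  refine ⟨⟨?_, ?_⟩, ?_, ?_⟩
  · ext x
    show g (N (g.symm (g (N (g.symm x))))) = 0
    rw [LinearEquiv.symm_apply_apply, sd_sq hN, map_zero]
  · have h2 : range ((g : V →ₗ[K] V) ∘ₗ N ∘ₗ (g.symm : V →ₗ[K] V)) =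
        (range N).map (g : V →ₗ[K] V) := by
      ext y
      constructor
      · rintro ⟨x, rfl⟩
        exact ⟨_, ⟨_, rfl⟩, rfl⟩
      · rintro ⟨_, ⟨x, rfl⟩, rfl⟩
        refine ⟨g x, ?_⟩
        show g (N (g.symm (g x))) = _
        rw [LinearEquiv.symm_apply_apply]
        rfl
    rw [h2, LinearEquiv.finrank_map_eq]
    exact sd_rank hN
  · intro x y
    show B (g (N (g.symm x))) y = B x (g (N (g.symm y)))
    have h1 : B (g (N (g.symm x))) y = B (N (g.symm x)) (g.symm y) := by
      rw [← hg (N (g.symm x)) (g.symm y), LinearEquiv.apply_symm_apply]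
    rw [h1, sd_adj hN, isom_symm hg]
  · rw [← hN.2.2]
    have h1 : ∀ x, B (((g : V →ₗ[K] V) ∘ₗ N ∘ₗ (g.symm : V →ₗ[K] V)) x) x =
        B (N (g.symm x)) (g.symm x) := by
      intro x
      show B (g (N (g.symm x))) x = _
      rw [← hg (N (g.symm x)) (g.symm x), LinearEquiv.apply_symm_apply]
    constructor
    · intro h x
      have h2 := h (g x)
      rw [h1, LinearEquiv.symm_apply_apply] at h2
      exact h2
    · intro h x
      rw [h1]
      exact h _

end Pool.Agent.Helper81.SG
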