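import Pool.Agent.Helper2.EV.Defs

/-!
# Project SG (MP_0d9fdb_al): all involutions of `Sp(2n, 2^k)`, the group part

`B` is an alternating nondegenerate bilinear form on `V`, `K` a finite field of characteristic two. The
involutions of the isometry group of `B` are the `1 + N` with `N² = 0` and `N` self adjoint. `SD B j ty`: the set
of those of rank `j` for which the form `B (N x) y` is alternating (`ty` true) or not (`ty` false). `PresS`: the map
`ψ` preserves `SD B j ty` and the orders of all products `(1 + N) (1 + M)`.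
-/

set_option autoImplicit false

open LinearMap

namespace Pool.Agent.Helper81.SG

open Pool.Agent.Helper2.EV

variable {K : Type*} [Field K] {V : Type*} [AddCommGroup V] [Module K V]

/-- Self adjoint square zero endomorphisms of rank `j` and given type. -/
def SD (B : LinearMap.BilinForm K V) (j : ℕ) (ty : Prop) : Set (Module.End K V) :=
  {N | N ∈ Sq K V j ∧ (∀ x y, B (N x) y = B x (N y)) ∧ ((∀ x, B (N x) x = 0) ↔ ty)}

/-- `ψ` preserves `SD B j ty` and the orders of products. -/
structure PresS (B : LinearMap.BilinForm K V) (j : ℕ) (ty : Prop)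
    (ψ : Module.End K V → Module.End K V) : Prop where
  mem : ∀ N ∈ SD B j ty, ψ N ∈ SD B j ty
  ord : ∀ N ∈ SD B j ty, ∀ M ∈ SD B j ty, ∀ m : ℕ,
    ((1 + ψ N) * (1 + ψ M)) ^ m = 1 ↔ ((1 + N) * (1 + M)) ^ m = 1

variable {B : LinearMap.BilinForm K V}

theorem sd_mul {j : ℕ} {ty : Prop} {N : Module.End K V} (h : N ∈ SD B j ty) : N * N = 0 := h.1.1

theorem sd_sq {j : ℕ} {ty : Prop} {N : Module.End K V} (h : N ∈ SD B j ty) (x : V) :
    N (N x) = 0 := LinearMap.congr_fun h.1.1 x

theorem sd_adj {j : ℕ} {ty : Prop} {N : Module.End K V} (h : N ∈ SD B j ty) (x y : V) :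
    B (N x) y = B x (N y) := h.2.1 x y

theorem sd_iso {j : ℕ} {ty : Prop} {N : Module.End K V} (h : N ∈ SD B j ty) (x y : V) :
    B (N x) (N y) = 0 := by
  rw [sd_adj h, sd_sq h, map_zero]

theorem sd_rank {j : ℕ} {ty : Prop} {N : Module.End K V} (h : N ∈ SD B j ty) :
    Module.finrank K (range N) = j := h.1.2

end Pool.Agent.Helper81.SG
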