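import Pool.Agent.Helper81.SG.Tr

/-!
# Project SG: frames of the self adjoint endomorphisms

Non alternating type: `N x = ∑ i, B x (u i) • u i`; alternating type:
`N x = ∑ i, (B x (u i) • v i + B x (v i) • u i)`.
-/

set_option autoImplicit false
set_option linter.unusedSectionVars false

open LinearMap

namespace Pool.Agent.Helper81.SG

open Pool.Agent.Helper2.EV Pool.Agent.Helper52.IG

variable {K : Type*} [Field K] [CharP K 2] {V : Type*} [AddCommGroup V] [Module K V]
  {B : LinearMap.BilinForm K V}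

/-- The endomorphism `x ↦ B x u • v`. -/
noncomputable def rk (B : LinearMap.BilinForm K V) (u v : V) : Module.End K V :=
  (B.flip u).smulRight v

theorem rk_apply (u v x : V) : rk B u v x = B x u • v := rfl

theorem dd (a : K) : a + a = 0 := CharTwo.add_self_eq_zero a

theorem ne_zero_dual (hnd : B.Nondegenerate) {w : V} (hw : w ≠ 0) : ∃ z, B w z = 1 := by
  obtain ⟨x, hx⟩ : ∃ x, B w x ≠ 0 := by
    by_contra hcon
    push Not at hcon
    exact hw (hnd.1 _ hcon)
  refine ⟨(B w x)⁻¹ • x, ?_⟩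
  rw [map_smul, smul_eq_mul, inv_mul_cancel₀ hx]

variable [FiniteDimensional K V]

theorem drop_one {N N₁ : Module.End K V} (hadj : ∀ x y, B (N x) y = B x (N y)) {x : V}
    (hx : B (N x) x = 1) (hN₁ : ∀ y, N₁ y = N y + B y (N x) • N x) :
    Module.finrank K (range N₁) + 1 = Module.finrank K (range N) := by
  have h0 : N x ≠ 0 := by
    intro h0
    rw [h0, map_zero, LinearMap.zero_apply] at hx
    exact zero_ne_one hx
  have hperp : ∀ w ∈ range N₁, B w x = 0 := by
    rintro _ ⟨y, rfl⟩
    rw [hN₁, map_add, LinearMap.add_apply, map_smul, LinearMap.smul_apply, hx, hadj, smul_eq_mul,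
      mul_one]
    exact dd _
  have h1 : range N₁ ⊔ (K ∙ N x) = range N := by
    apply le_antisymm
    · refine sup_le ?_ ((Submodule.span_singleton_le_iff_mem _ _).2 ⟨x, rfl⟩)
      rintro _ ⟨y, rfl⟩
      refine ⟨y + B y (N x) • x, ?_⟩
      rw [map_add, map_smul, hN₁]
    · rintro _ ⟨y, rfl⟩
      rw [Submodule.mem_sup]
      refine ⟨N₁ y, ⟨y, rfl⟩, B y (N x) • N x, Submodule.smul_mem _ _
        (Submodule.mem_span_singleton_self _), ?_⟩
      rw [hN₁, add_assoc, add_self_V K, add_zero]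
  have h2 : range N₁ ⊓ (K ∙ N x) = ⊥ := by
    rw [Submodule.eq_bot_iff]
    rintro w ⟨hw1, hw2⟩
    obtain ⟨c, rfl⟩ := Submodule.mem_span_singleton.1 hw2
    have h3 := hperp _ hw1
    rw [map_smul, LinearMap.smul_apply, hx, smul_eq_mul, mul_one] at h3
    rw [h3, zero_smul]
  have h3 := Submodule.finrank_sup_add_finrank_inf_eq (range N₁) (K ∙ N x)
  rw [h1, h2, finrank_bot, finrank_span_singleton h0] at h3
  omega

theorem drop_two (halt : B.IsAlt) {N N₁ : Module.End K V}
    (hadj : ∀ x y, B (N x) y = B x (N y)) (hN : ∀ x, B (N x) x = 0) {y z : V}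
    (hyz : B (N y) z = 1)
    (hN₁ : ∀ x, N₁ x = N x + (B x (N y) • N z + B x (N z) • N y)) :
    Module.finrank K (range N₁) + 2 = Module.finrank K (range N) := by
  have hzy : B (N z) y = 1 := by rw [hadj, alt_symm halt, hyz]
  have hperp1 : ∀ w ∈ range N₁, B w y = 0 := by
    rintro _ ⟨x, rfl⟩
    rw [hN₁]
    simp only [map_add, map_smul, LinearMap.add_apply, LinearMap.smul_apply, smul_eq_mul]
    rw [hN, hzy, hadj]
    linear_combination dd (B x (N y))
  have hperp2 : ∀ w ∈ range N₁, B w z = 0 := by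
    rintro _ ⟨x, rfl⟩
    rw [hN₁]
    simp only [map_add, map_smul, LinearMap.add_apply, LinearMap.smul_apply, smul_eq_mul]
    rw [hN, hyz, hadj]
    linear_combination dd (B x (N z))
  have hlin : LinearIndependent K ![N y, N z] := by
    rw [LinearIndependent.pair_iff]
    intro s t hst
    have h1 := congrArg (fun w => B w y) hst
    have h2 := congrArg (fun w => B w z) hst
    simp only [map_add, map_smul, LinearMap.add_apply, LinearMap.smul_apply, hN, hzy, hyz,
      smul_eq_mul, mul_zero, mul_one, zero_add, add_zero, map_zero, LinearMap.zero_apply] at h1 h2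
    exact ⟨h2, h1⟩
  have hspan : Submodule.span K (Set.range ![N y, N z]) = Submodule.span K {N y, N z} := by
    rw [Matrix.range_cons, Matrix.range_cons, Matrix.range_empty, Set.union_empty]
    rfl
  have h1 : range N₁ ⊔ Submodule.span K (Set.range ![N y, N z]) = range N := by
    rw [hspan]
    apply le_antisymm
    · refine sup_le ?_ ?_
      · rintro _ ⟨x, rfl⟩
        refine ⟨x + (B x (N y) • z + B x (N z) • y), ?_⟩
        rw [map_add, map_add, map_smul, map_smul, hN₁]
      · rw [Submodule.span_le]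
        rintro w (rfl | rfl)
        · exact ⟨y, rfl⟩
        · exact ⟨z, rfl⟩
    · rintro _ ⟨x, rfl⟩
      rw [Submodule.mem_sup]
      refine ⟨N₁ x, ⟨x, rfl⟩, B x (N y) • N z + B x (N z) • N y, Submodule.add_mem _
        (Submodule.smul_mem _ _ (Submodule.subset_span (by simp)))
        (Submodule.smul_mem _ _ (Submodule.subset_span (by simp))), ?_⟩
      rw [hN₁, add_assoc, add_self_V K, add_zero]
  have h2 : range N₁ ⊓ Submodule.span K (Set.range ![N y, N z]) = ⊥ := by
    rw [hspan, Submodule.eq_bot_iff]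
    rintro w ⟨hw1, hw2⟩
    obtain ⟨s, t, rfl⟩ := Submodule.mem_span_pair.1 hw2
    have h3 := hperp1 _ hw1
    have h4 := hperp2 _ hw1
    simp only [map_add, map_smul, LinearMap.add_apply, LinearMap.smul_apply, hN, hzy, hyz,
      smul_eq_mul, mul_zero, mul_one, zero_add, add_zero] at h3 h4
    rw [h3, h4, zero_smul, zero_smul, add_zero]
  have h3 := Submodule.finrank_sup_add_finrank_inf_eq (range N₁)
    (Submodule.span K (Set.range ![N y, N z]))
  rw [h1, h2, finrank_bot, finrank_span_eq_card hlin, Fintype.card_fin] at h3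
  omega

/-- The good vector. -/
theorem exists_good [Finite K] (hnd : B.Nondegenerate) (halt : B.IsAlt) {N : Module.End K V}
    (hadj : ∀ x y, B (N x) y = B x (N y)) (hN : ∃ x, B (N x) x ≠ 0)
    (hr : 2 ≤ Module.finrank K (range N)) :
    ∃ x, B (N x) x = 1 ∧ ∃ z, B (N z + B z (N x) • N x) z ≠ 0 := by
  obtain ⟨x₁, hx₁⟩ := hN
  obtain ⟨c, hc⟩ : ∃ c : K, c ^ 2 = (B (N x₁) x₁)⁻¹ := by
    have : Function.Surjective (frobenius K 2) :=
      Finite.surjective_of_injective (frobenius_inj K 2)
    exact this _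
  obtain ⟨x, hx⟩ : ∃ x, B (N x) x = 1 := by
    refine ⟨c • x₁, ?_⟩
    simp only [map_smul, LinearMap.smul_apply, smul_eq_mul]
    rw [← mul_assoc, ← sq, hc, inv_mul_cancel₀ hx₁]
  by_cases hcase : ∃ z, B (N z + B z (N x) • N x) z ≠ 0
  · exact ⟨x, hx, hcase⟩
  push Not at hcase
  obtain ⟨N₁, hN₁'⟩ : ∃ N₁ : Module.End K V, N₁ = N + rk B (N x) (N x) := ⟨_, rfl⟩
  have hN₁ : ∀ y, N₁ y = N y + B y (N x) • N x := fun y => by rw [hN₁']; rfl
  have hd := drop_one hadj hx hN₁
  have hxN : B x (N x) = 1 := by rw [← hadj, hx]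
  have hne : ∃ y₀, N₁ y₀ ≠ 0 := by
    by_contra hcon
    push Not at hcon
    have h1 : N₁ = 0 := LinearMap.ext hcon
    rw [h1, LinearMap.range_zero, finrank_bot] at hd
    omega
  obtain ⟨y₀, hy₀⟩ := hne
  have hx0 : N₁ x = 0 := by
    rw [hN₁, hxN, one_smul, add_self_V K]
  obtain ⟨y, hy⟩ : ∃ y, y = y₀ + B y₀ (N x) • x := ⟨_, rfl⟩
  have hN₁y : N₁ y ≠ 0 := by
    rw [hy, map_add, map_smul, hx0, smul_zero, add_zero]
    exact hy₀
  have hyx : B y (N x) = 0 := by
    rw [hy, map_add, LinearMap.add_apply, map_smul, LinearMap.smul_apply, hxN, smul_eq_mul, mul_one]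
    exact dd _
  have hNy : N y = N₁ y := by rw [hN₁, hyx, zero_smul, add_zero]
  have hyy : B (N y) y = 0 := by
    have h1 := hcase y
    rw [hyx, zero_smul, add_zero] at h1
    exact h1
  have hxy : B (N x) y = 0 := by rw [alt_symm halt]; exact hyx
  have hyx' : B (N y) x = 0 := by rw [hadj]; exact hyx
  obtain ⟨z, hz⟩ := ne_zero_dual hnd (w := N y) (by rw [hNy]; exact hN₁y)
  refine ⟨x + y, ?_, z, ?_⟩
  · simp only [map_add, LinearMap.add_apply]
    rw [hx, hxy, hyx', hyy]
    ring
  · have h1 : B (N z) z = B z (N x) * B z (N x) := by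
      have h2 := hcase z
      rw [map_add, LinearMap.add_apply, map_smul, LinearMap.smul_apply, smul_eq_mul,
        alt_symm halt (N x) z] at h2
      linear_combination h2 - dd (B z (N x) * B z (N x))
    have h2 : B z (N y) = 1 := by rw [alt_symm halt, hz]
    have h3 : B (N z + B z (N (x + y)) • N (x + y)) z = 1 := by
      rw [map_add, LinearMap.add_apply, map_smul, LinearMap.smul_apply, smul_eq_mul,
        alt_symm halt (N (x + y)) z, h1, map_add, map_add, h2]
      linear_combination dd (B z (N x) * B z (N x)) + dd (B z (N x))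
    rw [h3]
    exact one_ne_zero

theorem frame_non [Finite K] (hnd : B.Nondegenerate) (halt : B.IsAlt) (j : ℕ) :
    ∀ {N : Module.End K V}, (∀ x y, B (N x) y = B x (N y)) → (∃ x, B (N x) x ≠ 0) →
      Module.finrank K (range N) = j + 1 →
      ∃ u : Fin (j + 1) → V, (∀ i, u i ∈ range N) ∧ ∀ x, N x = ∑ i, B x (u i) • u i := by
  induction j with
  | zero =>
    intro N hadj hN hr
    obtain ⟨x₁, hx₁⟩ := hN
    obtain ⟨c, hc⟩ : ∃ c : K, c ^ 2 = (B (N x₁) x₁)⁻¹ := by
      have : Function.Surjective (frobenius K 2) :=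
        Finite.surjective_of_injective (frobenius_inj K 2)
      exact this _
    obtain ⟨x, hx⟩ : ∃ x, B (N x) x = 1 := by
      refine ⟨c • x₁, ?_⟩
      simp only [map_smul, LinearMap.smul_apply, smul_eq_mul]
      rw [← mul_assoc, ← sq, hc, inv_mul_cancel₀ hx₁]
    obtain ⟨N₁, hN₁'⟩ : ∃ N₁ : Module.End K V, N₁ = N + rk B (N x) (N x) := ⟨_, rfl⟩
    have hN₁ : ∀ y, N₁ y = N y + B y (N x) • N x := fun y => by rw [hN₁']; rfl
    have hd := drop_one hadj hx hN₁
    have h0 : range N₁ = ⊥ := by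
      rw [← Submodule.finrank_eq_zero (R := K)]
      omega
    refine ⟨fun _ => N x, fun _ => ⟨x, rfl⟩, fun y => ?_⟩
    have h1 : N₁ y = 0 := by
      have : N₁ y ∈ range N₁ := ⟨y, rfl⟩
      rw [h0, Submodule.mem_bot] at this
      exact this
    rw [hN₁] at h1
    rw [Fin.sum_univ_one]
    have h2 : N y = (N y + B y (N x) • N x) + B y (N x) • N x := by
      rw [add_assoc, add_self_V K, add_zero]
    rw [h2, h1, zero_add]
  | succ j ih =>
    intro N hadj hN hr
    obtain ⟨x, hx, hz⟩ := exists_good hnd halt hadj hN (by omega)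
    obtain ⟨N₁, hN₁'⟩ : ∃ N₁ : Module.End K V, N₁ = N + rk B (N x) (N x) := ⟨_, rfl⟩
    have hN₁ : ∀ y, N₁ y = N y + B y (N x) • N x := fun y => by rw [hN₁']; rfl
    have hd := drop_one hadj hx hN₁
    obtain ⟨u, hu1, hu2⟩ := ih (N := N₁) (by
      intro a b
      rw [hN₁, hN₁, map_add, map_add, LinearMap.add_apply, map_smul, map_smul,
        LinearMap.smul_apply, hadj, smul_eq_mul, smul_eq_mul, alt_symm halt (N x) b]
      ring) (by
      obtain ⟨z, hz⟩ := hz
      exact ⟨z, by rw [hN₁]; exact hz⟩) (by omega)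
    refine ⟨Fin.cons (N x) u, ?_, ?_⟩
    · intro i
      refine Fin.cases ⟨x, rfl⟩ (fun i => ?_) i
      rw [Fin.cons_succ]
      obtain ⟨y, hy⟩ := hu1 i
      rw [← hy, hN₁]
      exact ⟨y + B y (N x) • x, by rw [map_add, map_smul]⟩
    · intro y
      rw [Fin.sum_univ_succ]
      simp only [Fin.cons_zero, Fin.cons_succ]
      rw [← hu2, hN₁, add_comm (N y), ← add_assoc, add_self_V K, zero_add]

theorem frame_alt (hnd : B.Nondegenerate) (halt : B.IsAlt) (n : ℕ) :
    ∀ {N : Module.End K V}, (∀ x y, B (N x) y = B x (N y)) → (∀ x, B (N x) x = 0) →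
      Module.finrank K (range N) ≤ n →
      ∃ m, Module.finrank K (range N) = m + m ∧ ∃ u v : Fin m → V, (∀ i, u i ∈ range N) ∧
        (∀ i, v i ∈ range N) ∧ ∀ x, N x = ∑ i, (B x (u i) • v i + B x (v i) • u i) := by
  induction n with
  | zero =>
    intro N hadj hN hr
    have h0 : range N = ⊥ := by
      rw [← Submodule.finrank_eq_zero (R := K)]
      omega
    refine ⟨0, by omega, Fin.elim0, Fin.elim0, fun i => i.elim0, fun i => i.elim0, fun x => ?_⟩
    rw [Finset.univ_eq_empty, Finset.sum_empty]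
    have : N x ∈ range N := ⟨x, rfl⟩
    rw [h0, Submodule.mem_bot] at this
    exact this
  | succ n ih =>
    intro N hadj hN hr
    by_cases h0 : N = 0
    · exact ih hadj hN (by rw [h0, LinearMap.range_zero, finrank_bot]; omega)
    obtain ⟨y, hy⟩ : ∃ y, N y ≠ 0 := by
      by_contra hcon
      push Not at hcon
      exact h0 (LinearMap.ext hcon)
    obtain ⟨z, hz⟩ := ne_zero_dual hnd hy
    obtain ⟨N₁, hN₁'⟩ : ∃ N₁ : Module.End K V,
      N₁ = N + (rk B (N y) (N z) + rk B (N z) (N y)) := ⟨_, rfl⟩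
    have hN₁ : ∀ x, N₁ x = N x + (B x (N y) • N z + B x (N z) • N y) := fun y => by
      rw [hN₁']; rfl
    have hd := drop_two halt hadj hN hz hN₁
    obtain ⟨m, hm, u, v, hu, hv, huv⟩ := ih (N := N₁) (by
      intro a b
      rw [hN₁, hN₁]
      simp only [map_add, map_smul, LinearMap.add_apply, LinearMap.smul_apply, smul_eq_mul]
      rw [hadj a b, alt_symm halt (N z) b, alt_symm halt (N y) b]
      ring) (by
      intro x
      rw [hN₁]
      simp only [map_add, map_smul, LinearMap.add_apply, LinearMap.smul_apply, smul_eq_mul]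
      rw [hN, alt_symm halt (N z) x, alt_symm halt (N y) x]
      linear_combination dd (B x (N y) * B x (N z))) (by omega)
    have hsub : ∀ w ∈ range N₁, w ∈ range N := by
      rintro _ ⟨x, rfl⟩
      exact ⟨x + (B x (N y) • z + B x (N z) • y), by
        rw [map_add, map_add, map_smul, map_smul, hN₁]⟩
    refine ⟨m + 1, by omega, Fin.cons (N y) u, Fin.cons (N z) v, ?_, ?_, ?_⟩
    · intro i
      refine Fin.cases ⟨y, rfl⟩ (fun i => ?_) i
      rw [Fin.cons_succ]
      exact hsub _ (hu i)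
    · intro i
      refine Fin.cases ⟨z, rfl⟩ (fun i => ?_) i
      rw [Fin.cons_succ]
      exact hsub _ (hv i)
    · intro x
      rw [Fin.sum_univ_succ]
      simp only [Fin.cons_zero, Fin.cons_succ]
      rw [← huv, hN₁, add_comm (N x), ← add_assoc, add_self_V K, zero_add]

end Pool.Agent.Helper81.SG
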