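import Pool.Agent.Helper81.SG.Defs
import Pool.Agent.Helper52.IG.Sp

/-!
# Project SG: the isometry group is transitive on the isotropic frames
-/

set_option autoImplicit false
set_option linter.unusedSectionVars false

open LinearMap

namespace Pool.Agent.Helper81.SG

open Pool.Agent.Helper2.EV Pool.Agent.Helper52.IG

variable {K : Type*} [Field K] [CharP K 2] {V : Type*} [AddCommGroup V] [Module K V]
  {B : LinearMap.BilinForm K V}

/-- `g` is an isometry. -/
def Isom (B : LinearMap.BilinForm K V) (g : V ≃ₗ[K] V) : Prop := ∀ x y, B (g x) (g y) = B x y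

theorem isom_mul {g h : V ≃ₗ[K] V} (hg : Isom B g) (hh : Isom B h) : Isom B (g * h) := by
  intro x y
  rw [LinearEquiv.mul_apply, LinearEquiv.mul_apply, hg, hh]

theorem isom_one : Isom B (1 : V ≃ₗ[K] V) := fun _ _ => rfl

/-- A vector orthogonal to `A` and not to `w`. -/
theorem exists_dual [FiniteDimensional K V] (hnd : B.Nondegenerate) (halt : B.IsAlt)
    {A : Submodule K V} {w : V} (hw' : w ∉ A) :
    ∃ y, (∀ a ∈ A, B a y = 0) ∧ B y w ≠ 0 := by
  by_contra hcon
  push Not at hcon
  apply hw'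
  rw [← LinearMap.BilinForm.orthogonal_orthogonal hnd halt.isRefl A]
  intro y hy
  exact hcon y (fun a ha => hy a ha)

theorem step [Finite K] (halt : B.IsAlt) {A : Submodule K V} {w v : V}
    (hw : ∀ a ∈ A, B a w = 0) (hv : ∀ a ∈ A, B a v = 0) (hwv : B w v ≠ 0) :
    ∃ g : V ≃ₗ[K] V, Isom B g ∧ (∀ a ∈ A, g a = a) ∧ g w = v := by
  obtain ⟨c, hc⟩ : ∃ c : K, c ^ 2 = (B w v)⁻¹ := by
    have : Function.Surjective (frobenius K 2) :=
      Finite.surjective_of_injective (frobenius_inj K 2)
    exact this _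
  refine ⟨tv halt (c • (w + v)), tv_isom halt _, ?_, ?_⟩
  · intro a ha
    rw [tv_apply, map_smul, map_add, hw a ha, hv a ha, add_zero, smul_zero, zero_smul, add_zero]
  · rw [tv_apply, map_smul, map_add, halt, zero_add, smul_smul, smul_eq_mul,
      show c * B w v * c = c ^ 2 * B w v by ring, hc, inv_mul_cancel₀ hwv, one_smul, ← add_assoc,
      add_self_V K, zero_add]

theorem move [Finite K] [FiniteDimensional K V] (hnd : B.Nondegenerate) (halt : B.IsAlt)
    {A : Submodule K V} {w v : V} (hw : ∀ a ∈ A, B a w = 0) (hv : ∀ a ∈ A, B a v = 0)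
    (hw' : w ∉ A) (hv' : v ∉ A) :
    ∃ g : V ≃ₗ[K] V, Isom B g ∧ (∀ a ∈ A, g a = a) ∧ g w = v := by
  obtain ⟨y, hyA, hyw, hyv⟩ : ∃ y, (∀ a ∈ A, B a y = 0) ∧ B w y ≠ 0 ∧ B y v ≠ 0 := by
    obtain ⟨y₁, h1, h2⟩ := exists_dual hnd halt hw'
    obtain ⟨y₂, h3, h4⟩ := exists_dual hnd halt hv'
    rw [alt_symm halt] at h2
    by_cases h5 : B y₁ v = 0
    · by_cases h6 : B w y₂ = 0
      · refine ⟨y₁ + y₂, fun a ha => by rw [map_add, h1 a ha, h3 a ha, add_zero], ?_, ?_⟩
        · rw [map_add, h6, add_zero]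
          exact h2
        · rw [map_add, LinearMap.add_apply, h5, zero_add]
          exact h4
      · exact ⟨y₂, h3, h6, h4⟩
    · exact ⟨y₁, h1, h2, h5⟩
  obtain ⟨g, hg, hgA, hgw⟩ := step halt hw hyA hyw
  obtain ⟨k, hk, hkA, hky⟩ := step halt hyA hv hyv
  refine ⟨k * g, isom_mul hk hg, ?_, ?_⟩
  · intro a ha
    rw [LinearEquiv.mul_apply, hgA a ha, hkA a ha]
  · rw [LinearEquiv.mul_apply, hgw, hky]

theorem trans_frames [Finite K] [FiniteDimensional K V] (hnd : B.Nondegenerate) (halt : B.IsAlt)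
    {ι : Type*} [Fintype ι] {u u' : ι → V} (hu : LinearIndependent K u)
    (hu' : LinearIndependent K u') (ht : ∀ i k, B (u i) (u k) = 0)
    (ht' : ∀ i k, B (u' i) (u' k) = 0) : ∃ g : V ≃ₗ[K] V, Isom B g ∧ ∀ i, g (u i) = u' i := by
  classical
  have key : ∀ s : Finset ι, ∃ g : V ≃ₗ[K] V, Isom B g ∧ ∀ i ∈ s, g (u i) = u' i := by
    intro s
    induction s using Finset.induction_on with
    | empty => exact ⟨1, isom_one, fun i hi => absurd hi (Finset.notMem_empty i)⟩
    | insert k s hk ih =>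
      obtain ⟨g, hg, hgi⟩ := ih
      obtain ⟨A, hA⟩ : ∃ A : Submodule K V, A = Submodule.span K (u' '' (s : Set ι)) := ⟨_, rfl⟩
      have hspan : ∀ p : V, (∀ i ∈ s, B (u' i) p = 0) → ∀ a ∈ A, B a p = 0 := by
        intro p hp a ha
        rw [hA] at ha
        induction ha using Submodule.span_induction with
        | mem x hx =>
          obtain ⟨i, hi, rfl⟩ := hx
          exact hp i hi
        | zero => rw [map_zero, LinearMap.zero_apply]
        | add x y _ _ hx hy => rw [map_add, LinearMap.add_apply, hx, hy, add_zero]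
        | smul c x _ hx => rw [map_smul, LinearMap.smul_apply, hx, smul_zero]
      have hks : k ∉ (s : Set ι) := hk
      have hw' : g (u k) ∉ A := by
        intro hc
        have h1 : A = (Submodule.span K (u '' (s : Set ι))).map (g : V →ₗ[K] V) := by
          rw [hA, Submodule.map_span, Set.image_image]
          congr 1
          apply Set.image_congr
          intro i hi
          exact (hgi i hi).symm
        rw [h1] at hc
        obtain ⟨x, hx, hx2⟩ := hc
        have h2 : x = u k := g.injective hx2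
        rw [h2] at hx
        exact hu.notMem_span_image hks hx
      have hv' : u' k ∉ A := by
        rw [hA]
        exact hu'.notMem_span_image hks
      obtain ⟨g', hg', hfix, hmv⟩ := move hnd halt (A := A) (w := g (u k)) (v := u' k)
        (hspan _ fun i hi => by rw [← hgi i hi, hg, ht]) (hspan _ fun i _ => ht' i k) hw' hv'
      refine ⟨g' * g, isom_mul hg' hg, ?_⟩
      intro i hi
      rw [LinearEquiv.mul_apply]
      rcases Finset.mem_insert.1 hi with rfl | hi
      · exact hmv
      · rw [hgi i hi]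
        exact hfix _ (by rw [hA]; exact Submodule.subset_span ⟨i, hi, rfl⟩)
  obtain ⟨g, hg, hgi⟩ := key Finset.univ
  exact ⟨g, hg, fun i => hgi i (Finset.mem_univ i)⟩

theorem isom_symm {g : V ≃ₗ[K] V} (hg : Isom B g) (x y : V) : B (g.symm x) y = B x (g y) := by
  rw [← hg (g.symm x) y, LinearEquiv.apply_symm_apply]

/-- Two endomorphisms with the same shape in isotropic frames are conjugate. -/
theorem conj_of_frames [Finite K] [FiniteDimensional K V] (hnd : B.Nondegenerate) (halt : B.IsAlt)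
    {ι : Type*} [Fintype ι] (σ : ι → ι) {u u' : ι → V} (hu : LinearIndependent K u)
    (hu' : LinearIndependent K u') (ht : ∀ i k, B (u i) (u k) = 0)
    (ht' : ∀ i k, B (u' i) (u' k) = 0) {N N' : Module.End K V}
    (hN : ∀ x, N x = ∑ i, B x (u i) • u (σ i)) (hN' : ∀ x, N' x = ∑ i, B x (u' i) • u' (σ i)) :
    ∃ g : V ≃ₗ[K] V, Isom B g ∧ ∀ x, g (N (g.symm x)) = N' x := by
  obtain ⟨g, hg, hgi⟩ := trans_frames hnd halt hu hu' ht ht'
  refine ⟨g, hg, fun x => ?_⟩
  rw [hN, hN', map_sum]
  refine Finset.sum_congr rfl fun i _ => ?_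
  rw [map_smul, hgi, isom_symm hg, hgi]

end Pool.Agent.Helper81.SG
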